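import Pool.Agent.W92.DPH.Basic

/-!
Double points of the half-plane path which are made before the time `t`.
-/

namespace Pool.Agent.W92.DPH

open MeasureTheory Filter Topology Set Pool.Agent.W92.DP
open scoped ENNReal NNReal

/-- The double points made before the time `t`. -/
def dblT (f : C(unitInterval, ℂ)) (t : unitInterval) : Set ℂ :=
  {z | ∃ s u : unitInterval, s ≤ t ∧ u ≤ t ∧ s ≠ u ∧ f s = z ∧ f u = z}

/-- The double times before the time `t`. -/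
def dbtT (f : C(unitInterval, ℂ)) (t : unitInterval) : Set unitInterval :=
  {s | s ≤ t ∧ ∃ u : unitInterval, u ≤ t ∧ u ≠ s ∧ f u = f s}

theorem away {f : C(unitInterval, ℂ)} (h : ∀ s : unitInterval, 0 < s → f s ≠ 0)
    {t : unitInterval} (ht : 0 < t) : ∃ ρ : ℝ, 0 < ρ ∧ ∀ s : unitInterval, t ≤ s → ρ ≤ ‖f s‖ := by
  obtain ⟨s0, hs0, hmin⟩ := (isCompact_Icc (a := t) (b := (1 : unitInterval))).exists_isMinOn
    ⟨t, le_refl t, t.2.2⟩ (f := fun s => ‖f s‖) (by fun_prop)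
  refine ⟨‖f s0‖, norm_pos_iff.2 (h s0 (lt_of_lt_of_le ht hs0.1)), fun s hs => ?_⟩
  exact hmin ⟨hs, s.2.2⟩

theorem asmH {f : C(unitInterval, ℂ)}
    (h1 : ∀ k : ℕ, dimH (DPt (1 / ((k:ℝ) + 1)) f ∩ {z : ℂ | 0 < z.im}) ≤ 3/4)
    (h2 : ∀ j k : ℕ, ENNReal.ofReal (3/4 - 1 / ((k:ℝ) + 2)) ≤
      dimH {z : ℂ | 0 < z.im ∧ dist z 0 < 1 / ((j:ℝ) + 1) ∧ ∃ η : ℝ, 0 < η ∧ z ∈ DPt η f})
    (h3 : ∀ E : Set unitInterval, dimH (f '' E) = 7 / 4 * dimH E)
    (h4 : ∀ s : unitInterval, 0 < s → f s ≠ 0) (t : unitInterval) (ht : 0 < t) :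
    dimH {z : ℂ | 0 < z.im ∧ z ∈ dblT f t} = 3 / 4 ∧
      dimH {s : unitInterval | 0 < (f s).im ∧ s ∈ dbtT f t} = 3 / 7 := by
  obtain ⟨A, B, C⟩ := asm (D := {z : ℂ | 0 < z.im}) h1 h2 h3
  obtain ⟨ρ, hρ, hfar⟩ := away h4 ht
  obtain ⟨A1, A2⟩ := A ρ hρ
  have lt_of : ∀ s : unitInterval, dist (f s) 0 < ρ → s ≤ t := by
    intro s hs
    by_contra hcon
    have := hfar s (not_le.mp hcon).le
    rw [dist_zero_right] at hs
    linarith
  constructor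
  · apply le_antisymm
    · rw [← B]
      apply dimH_mono
      rintro z ⟨hz, s, u, -, -, hne, hs, hu⟩
      exact ⟨hz, s, u, hne, hs, hu⟩
    · rw [← A1]
      apply dimH_mono
      rintro z ⟨hz, hzρ, s, u, hne, hs, hu⟩
      exact ⟨hz, s, u, lt_of s (by rw [hs]; exact hzρ), lt_of u (by rw [hu]; exact hzρ), hne,
        hs, hu⟩
  · apply le_antisymm
    · rw [← C]
      apply dimH_mono
      rintro s ⟨hz, hst, u, hu, hne, hus⟩
      exact ⟨hz, u, hne, hus⟩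
    · rw [← A2]
      apply dimH_mono
      rintro s ⟨hz, hzρ, u, hne, hus⟩
      exact ⟨hz, lt_of s hzρ, u, lt_of u (by rw [hus]; exact hzρ), hne, hus⟩

end Pool.Agent.W92.DPH
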