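import Pool.Agent.W52.DPInd
import Pool.Agent.W92.DP.Asm
import Pool.Agent.H984R4.HN.FinalH
import Pool.Agent.H984R4.HN.Disp
import Pool.Agent.H984R4.HN.TailLow
import Pool.Agent.H984R4.HN.Couple

/-!
Double points of the half-plane exploration path: the path of the box (half-plane boundary
condition) is the path of the rectangle for the configuration without the edges of the positive
half-axis, and the statements which are needed.
-/

namespace Pool.Agent.W92.DPH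

open H974 H12S Finset H389NS H984P MeasureTheory Filter Topology Pool.Agent.W92.DP

/-- The same rectangle. -/
def toN (D : H984H.Dm) : H984N.Dm := ⟨D.l, D.r, D.h, D.t⟩

/-- The configuration without the edges of the positive half-axis. -/
noncomputable def cz (F : Finset Edg) : Finset Edg :=
  F.filter (fun e => ¬ (e.2.2 = true ∧ e.2.1 = 0 ∧ 0 ≤ e.1))

theorem mem_cz {F : Finset Edg} {e : Edg} :
    e ∈ cz F ↔ e ∈ F ∧ ¬ (e.2.2 = true ∧ e.2.1 = 0 ∧ 0 ≤ e.1) := by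
  unfold cz
  rw [Finset.mem_filter]

theorem cz_sub (F : Finset Edg) : cz F ⊆ F := Finset.filter_subset _ _

theorem cz_coe (F : Finset Edg) : (↑(cz F) : Set Edg) = ↑F \ H984H.Dm.zer := by
  ext e
  rw [Finset.mem_coe, mem_cz]
  exact Iff.rfl

theorem wir_eq (D : H984H.Dm) : (toN D).wir = D.wir := rfl

theorem cfg_eq (D : H984H.Dm) (F : Finset Edg) : (toN D).cfg (cz F) = D.cfg F := by
  unfold H984N.Dm.cfg H984H.Dm.cfg
  rw [cz_coe, wir_eq]

theorem walk_eq (D : H984H.Dm) (F : Finset Edg) (k : ℕ) :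
    (toN D).walk (cz F) k = D.walk F k := by
  unfold H984N.Dm.walk H984H.Dm.walk
  rw [cfg_eq]
  rfl

theorem len_eq (D : H984H.Dm) (F : Finset Edg) : (toN D).len (cz F) = D.len F := by
  unfold H984N.Dm.len H984H.Dm.len
  congr 1
  ext k
  simp only [Set.mem_ofPred_eq]
  rw [walk_eq]
  rfl

theorem ok_toN {D : H984H.Dm} (h : D.Ok) : (toN D).Ok :=
  ⟨h.l_neg, h.r_pos, h.h_pos, h.l_le, h.le_r⟩

theorem edges_eq (D : H984H.Dm) : (toN D).edges = D.edges := rfl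

theorem cz_edges {D : H984H.Dm} {F : Finset Edg} (h : F ⊆ D.edges) : cz F ⊆ (toN D).edges :=
  (cz_sub F).trans h

/-- Boxes above the real axis do not see the difference. -/
theorem A4a_cz {c : ℤ × ℤ} {d k : ℕ} (h : 0 < c.2 - k) (F : Finset Edg) :
    A4a c d k ↑(cz F) ↔ A4a c d k ↑F := by
  have e : (↑(cz F) : Set Edg) ∩ ↑(blk c k \ blk c d) = ↑F ∩ ↑(blk c k \ blk c d) := by
    ext e
    constructor
    · rintro ⟨h1, h2⟩
      exact ⟨cz_sub F h1, h2⟩
    · rintro ⟨h1, h2⟩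
      refine ⟨?_, h2⟩
      rw [Finset.mem_coe, mem_cz]
      refine ⟨h1, ?_⟩
      rintro ⟨h3, h4, h5⟩
      rw [Finset.mem_coe, Finset.mem_sdiff] at h2
      have h6 := h2.1
      obtain ⟨x, y, b⟩ := e
      simp only at h3 h4 h5
      subst h3
      subst h4
      unfold blk at h6
      rw [mem_RE_true] at h6
      omega
  unfold A4a
  rw [e]

theorem A4d_cz {c : ℤ × ℤ} {d k : ℕ} (h : 0 < c.2 - k) (F : Finset Edg) :
    A4d c d k ↑(cz F) ↔ A4d c d k ↑F := by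
  have e : (dl '' (↑(cz F) : Set Edg)ᶜ) ∩ ↑(blk c k \ blk c d) =
      (dl '' (↑F : Set Edg)ᶜ) ∩ ↑(blk c k \ blk c d) := by
    ext e
    constructor
    · rintro ⟨⟨e', h1, rfl⟩, h2⟩
      refine ⟨⟨e', ?_, rfl⟩, h2⟩
      intro h3
      apply h1
      rw [Finset.mem_coe, mem_cz]
      refine ⟨h3, ?_⟩
      rintro ⟨h4, h5, h6⟩
      rw [Finset.mem_coe, Finset.mem_sdiff] at h2
      have h7 := h2.1
      obtain ⟨x, y, b⟩ := e'
      simp only at h4 h5 h6
      subst h4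
      subst h5
      rw [dl_t] at h7
      unfold blk at h7
      rw [mem_RE_false] at h7
      omega
    · rintro ⟨⟨e', h1, rfl⟩, h2⟩
      refine ⟨⟨e', fun h3 => h1 (cz_sub F h3), rfl⟩, h2⟩
  unfold A4d A4a
  rw [e]

theorem GO_cz {U : ℤ} (hU : 1 ≤ U) {F : Finset Edg} (h : GO U F) : GO U (cz F) := by
  obtain ⟨h1, h2⟩ := h
  constructor
  · obtain ⟨y, y', h3, h4, h5⟩ := h1
    refine ⟨y, y', h3, h4, h5.mono ?_⟩
    rintro e ⟨h6, h7⟩
    refine ⟨?_, h7⟩
    rw [Finset.mem_coe, mem_cz]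
    refine ⟨h6, ?_⟩
    rintro ⟨h8, h9, h10⟩
    have h11 := LRE_subset_RE h7
    obtain ⟨x, y, b⟩ := e
    simp only at h8 h9 h10
    subst h8
    subst h9
    rw [mem_RE_true] at h11
    omega
  · obtain ⟨y, y', h3, h4, h5⟩ := h2
    refine ⟨y, y', h3, h4, h5.mono ?_⟩
    rintro e ⟨h6, h7⟩
    refine ⟨?_, h7⟩
    rw [Finset.mem_coe, mem_cz]
    refine ⟨h6, ?_⟩
    rintro ⟨h8, h9, h10⟩
    have h11 := TBE_subset_RE h7
    obtain ⟨x, y, b⟩ := e
    simp only at h8 h9 h10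
    subst h8
    subst h9
    rw [mem_RE_true] at h11
    omega

theorem DTB_cz {a b c d : ℤ} {F : Finset Edg} (h : DTB a b c d F) : DTB a b c d (cz F) := by
  obtain ⟨x, x', h1, h2, h3⟩ := h
  refine ⟨x, x', h1, h2, h3.mono ?_⟩
  exact_mod_cast Finset.sdiff_subset_sdiff (subset_refl _) (cz_sub F)

theorem DLR_cz {a b c d : ℤ} {F : Finset Edg} (h : DLR a b c d F) : DLR a b c d (cz F) := by
  obtain ⟨x, x', h1, h2, h3⟩ := h
  refine ⟨x, x', h1, h2, h3.mono ?_⟩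
  exact_mod_cast Finset.sdiff_subset_sdiff (subset_refl _) (cz_sub F)

theorem GD_cz {U : ℤ} {F : Finset Edg} (h : GD U F) : GD U (cz F) :=
  ⟨⟨DTB_cz h.1.1, DLR_cz h.1.2⟩, DTB_cz h.2⟩

theorem E4_cz {L m : ℕ} (hL : 1 ≤ L) (hm : 1 ≤ m) {v : Vtx} (hv : v ∈ core4 (L * m : ℕ))
    (F : Finset Edg) : E4 L m v (cz F) ↔ E4 L m v F := by
  have e : ∀ e : Edg, 0 < e.2.1 → (e ∈ cz F ↔ e ∈ F) := by
    intro e he
    rw [mem_cz]
    constructor
    · exact fun h => h.1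
    · exact fun h => ⟨h, fun h2 => by omega⟩
  have hLm : 1 ≤ L * m := Nat.mul_pos hL hm
  rw [W52.DPInd.mem_core4] at hv
  have h16 : 16 * L * m = 16 * (L * m) := by ring
  have h4 : 4 * L * m ≤ 16 * L * m := by
    have : 4 * L * m = 4 * (L * m) := by ring
    omega
  have hm16 : m ≤ 16 * L * m := by
    have : m ≤ L * m := Nat.le_mul_of_pos_left m hL
    omega
  have key : ∀ X : Finset Edg, X ⊆ boxE (16 * L * m) →
      shc v ↑(cz F) ∩ ↑X = shc v ↑F ∩ (↑X : Set Edg) := by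
    intro X hX
    ext a
    unfold shc
    have h7 : a ∈ X → 0 < ((a.1 + v.1, a.2.1 + v.2, a.2.2) : Edg).2.1 := by
      intro ha
      have h8 := hX ha
      unfold boxE at h8
      obtain ⟨x, y, b⟩ := a
      simp only
      have h9 : -((16 * L * m : ℕ) : ℤ) ≤ y := by
        rcases b with _ | _
        · rw [mem_RE_false] at h8; omega
        · rw [mem_RE_true] at h8; omega
      rw [h16] at h9
      push_cast at h9 hv
      have : (1 : ℤ) ≤ (L : ℤ) * m := by exact_mod_cast hLm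
      omega
    constructor
    · rintro ⟨h1, h2⟩
      exact ⟨(e _ (h7 h2)).1 h1, h2⟩
    · rintro ⟨h1, h2⟩
      exact ⟨(e _ (h7 h2)).2 h1, h2⟩
  have h8 : ∀ β : Bool, (((v.1, v.2, β) : Edg) ∈ cz F ↔ ((v.1, v.2, β) : Edg) ∈ F) := by
    intro β
    apply e
    simp only
    push_cast at hv
    have : (1 : ℤ) ≤ (L : ℤ) * m := by exact_mod_cast hLm
    omega
  unfold E4 Plus
  rw [key _ (W52.DPInd.XV_sub h4 hm16), key _ (W52.DPInd.XH_sub h4 hm16)]
  simp only [h8]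

theorem V4_cz {L m : ℕ} (hL : 1 ≤ L) (hm : 1 ≤ m) (F : Finset Edg) :
    V4 L m (cz F) = V4 L m F := by
  classical
  unfold V4
  apply Finset.filter_congr
  intro v hv
  exact E4_cz hL hm hv F

theorem Gd4_cz {c0 E0 t : ℝ} {L m : ℕ} (hL : 1 ≤ L) (hm : 1 ≤ m) {F : Finset Edg}
    (h : Gd4 c0 E0 t L m F) : Gd4 c0 E0 t L m (cz F) := by
  have hLm : (1 : ℤ) ≤ ((L * m : ℕ) : ℤ) := by
    have : 0 < L * m := Nat.mul_pos hL hm
    omega
  unfold Gd4 En4 at h ⊢
  rw [V4_cz hL hm]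
  exact ⟨⟨GO_cz hLm h.1.1, GD_cz h.1.2⟩, h.2⟩

/-! ### Statements (nothing is assumed) -/

/-- Upper bound for the dimension of the double points of the limits. -/
def St_limUH : Prop := St_U → St_Aa → St_Ad → ∀ φ : ℕ → ℕ, Tendsto φ atTop atTop →
  ∀ μ : ProbabilityMeasure C(unitInterval, ℂ), Tendsto (fun i => H984H.lawH (φ i)) atTop (𝓝 μ) →
    ∀ η : ℝ, 0 < η → ∀ᵐ f : C(unitInterval, ℂ) ∂(μ : Measure C(unitInterval, ℂ)),
      dimH (DPt η f ∩ {z : ℂ | 0 < z.im}) ≤ 3/4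

/-- The path of the box, from the middle of the top side to the origin: after it has been at
distance `r` from the origin it reaches distance `R` again with small probability. -/
def St_ret : Prop := ∃ a A : ℝ, 0 < a ∧ 0 < A ∧ ∀ r R ρ : ℤ, 1 ≤ r → r ≤ R → R < ρ →
  H984H.P (H984H.bx ρ).edges (fun F => ∃ i j : ℕ, i ≤ j ∧ j ≤ (H984H.bx ρ).len F ∧
    H984H.sd ((H984H.bx ρ).walk F i).1 (0, 0) ≤ r ∧
      R ≤ H984H.sd ((H984H.bx ρ).walk F j).1 (0, 0)) ≤ A * ((r : ℝ) / R) ^ a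

/-- Lower bound for the dimension of the double points of the limits, near the starting point. -/
def St_limLH : Prop := (∃ C : ℝ, 0 < C ∧ H342P.TwoUp C (1/4)) → St_ret → St_good → St_ind →
  St_det → ∀ φ : ℕ → ℕ, Tendsto φ atTop atTop →
  ∀ μ : ProbabilityMeasure C(unitInterval, ℂ), Tendsto (fun i => H984H.lawH (φ i)) atTop (𝓝 μ) →
    ∀ t : ℝ, 0 < t → t < 3/4 → ∀ ρ : ℝ, 0 < ρ →
      ∀ᵐ f : C(unitInterval, ℂ) ∂(μ : Measure C(unitInterval, ℂ)), ENNReal.ofReal t ≤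
        dimH {z : ℂ | 0 < z.im ∧ dist z 0 < ρ ∧ ∃ η : ℝ, 0 < η ∧ z ∈ DPt η f}

end Pool.Agent.W92.DPH
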